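import Mathlib

set_option autoImplicit false

namespace Pool.Agent.MP_542436_nt.H14

open Polynomial NumberField Finset
open scoped nonZeroDivisors

/-- Minkowski's theorem for a fractional ideal and a box. -/
theorem mink (K : Type) [Field K] [NumberField K] : ∃ c : ℝ, 1 ≤ c ∧
    ∀ (I : (FractionalIdeal (𝓞 K)⁰ K)ˣ) (f : InfinitePlace K → ℝ), (∀ w, 0 < f w) →
      c * (FractionalIdeal.absNorm I.1 : ℝ) ≤ ∏ w, f w ^ w.mult →
      ∃ a ∈ (I : FractionalIdeal (𝓞 K)⁰ K), a ≠ 0 ∧ ∀ w : InfinitePlace K, w a ≤ f w := by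
  classical
  have h0 : 0 ≤ (mixedEmbedding.minkowskiBound K 1).toReal := ENNReal.toReal_nonneg
  refine ⟨(mixedEmbedding.minkowskiBound K 1).toReal + 1, by linarith, fun I f hf h => ?_⟩
  have hN : (0 : ℝ) < (FractionalIdeal.absNorm I.1 : ℝ) := by
    have h1 : FractionalIdeal.absNorm I.1 ≠ 0 := by
      rw [Ne, FractionalIdeal.absNorm_eq_zero_iff]
      exact I.ne_zero
    exact_mod_cast lt_of_le_of_ne (FractionalIdeal.absNorm_nonneg _) h1.symm
  have hI : mixedEmbedding.minkowskiBound K I =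
      ENNReal.ofReal (FractionalIdeal.absNorm I.1) * mixedEmbedding.minkowskiBound K 1 := by
    rw [mixedEmbedding.minkowskiBound, mixedEmbedding.minkowskiBound,
      mixedEmbedding.volume_fundamentalDomain_fractionalIdealLatticeBasis,
      mixedEmbedding.volume_fundamentalDomain_fractionalIdealLatticeBasis, Units.val_one,
      FractionalIdeal.absNorm_one, Rat.cast_one, ENNReal.ofReal_one, one_mul, mul_assoc]
  let g : InfinitePlace K → NNReal := fun w => ⟨f w, (hf w).le⟩
  have hlt : mixedEmbedding.minkowskiBound K I <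
      MeasureTheory.volume (mixedEmbedding.convexBodyLT K g) := by
    rw [mixedEmbedding.convexBodyLT_volume, hI]
    have e1 : mixedEmbedding.minkowskiBound K 1 =
        ENNReal.ofReal (mixedEmbedding.minkowskiBound K 1).toReal :=
      (ENNReal.ofReal_toReal (mixedEmbedding.minkowskiBound_lt_top K 1).ne).symm
    have e2 : ((∏ w, g w ^ w.mult : NNReal) : ENNReal) = ENNReal.ofReal (∏ w, f w ^ w.mult) := by
      rw [← ENNReal.ofReal_coe_nnreal]
      congr 1
      push_cast
      rfl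
    have e3 : (1 : ENNReal) ≤ (mixedEmbedding.convexBodyLTFactor K : ENNReal) := by
      exact_mod_cast mixedEmbedding.one_le_convexBodyLTFactor K
    rw [e1, ← ENNReal.ofReal_mul hN.le, e2]
    refine lt_of_lt_of_le ?_ (le_mul_of_one_le_left' e3)
    rw [ENNReal.ofReal_lt_ofReal_iff (prod_pos fun w _ => pow_pos (hf w) _)]
    have : ((mixedEmbedding.minkowskiBound K 1).toReal + 1) * (FractionalIdeal.absNorm I.1 : ℝ) =
      (FractionalIdeal.absNorm I.1 : ℝ) * (mixedEmbedding.minkowskiBound K 1).toReal +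
        (FractionalIdeal.absNorm I.1 : ℝ) := by ring
    linarith
  obtain ⟨a, ha, ha0, hw⟩ := mixedEmbedding.exists_ne_zero_mem_ideal_lt K I hlt
  exact ⟨a, ha, ha0, fun w => (hw w).le⟩

theorem one_le_norm {K : Type} [Field K] [NumberField K] (J : FractionalIdeal (𝓞 K)⁰ K)
    (h : J ≤ 1) (h0 : J ≠ 0) : 1 ≤ FractionalIdeal.absNorm J := by
  obtain ⟨I, rfl⟩ := FractionalIdeal.le_one_iff_exists_coeIdeal.mp h
  have h1 : FractionalIdeal.absNorm (I : FractionalIdeal (𝓞 K)⁰ K) ≠ 0 := by
    rw [Ne, FractionalIdeal.absNorm_eq_zero_iff]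
    exact h0
  rw [FractionalIdeal.coeIdeal_absNorm] at h1 ⊢
  have : Ideal.absNorm I ≠ 0 := by exact_mod_cast h1
  exact_mod_cast Nat.one_le_iff_ne_zero.mpr this

theorem mem_one_iff_int {K : Type} [Field K] [NumberField K] (x : K) :
    x ∈ (1 : FractionalIdeal (𝓞 K)⁰ K) ↔ IsIntegral ℤ x := by
  rw [FractionalIdeal.mem_one_iff]
  constructor
  · rintro ⟨y, rfl⟩
    exact y.isIntegral_coe
  · intro h
    exact ⟨⟨x, h⟩, rfl⟩

theorem span_pow_le {K : Type} [Field K] [NumberField K] (ω : K) (j : ℕ) :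
    ∀ c : K, (∀ i, i ≤ j → IsIntegral ℤ (c * ω ^ i)) →
      FractionalIdeal.spanSingleton (𝓞 K)⁰ c *
        (1 + FractionalIdeal.spanSingleton (𝓞 K)⁰ ω) ^ j ≤ 1 := by
  induction j with
  | zero =>
    intro c h
    rw [pow_zero, mul_one, FractionalIdeal.spanSingleton_le_iff_mem, mem_one_iff_int]
    simpa using h 0 le_rfl
  | succ j ih =>
    intro c h
    have h1 := ih c (fun i hi => h i (by omega))
    have h2 := ih (c * ω) (fun i hi => by
      have := h (i + 1) (by omega)
      rwa [pow_succ', ← mul_assoc] at this)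
    have e : FractionalIdeal.spanSingleton (𝓞 K)⁰ c *
        (1 + FractionalIdeal.spanSingleton (𝓞 K)⁰ ω) ^ (j + 1) =
        FractionalIdeal.spanSingleton (𝓞 K)⁰ c *
          (1 + FractionalIdeal.spanSingleton (𝓞 K)⁰ ω) ^ j +
        FractionalIdeal.spanSingleton (𝓞 K)⁰ (c * ω) *
          (1 + FractionalIdeal.spanSingleton (𝓞 K)⁰ ω) ^ j := by
      rw [← FractionalIdeal.spanSingleton_mul_spanSingleton]
      ring
    rw [e, ← FractionalIdeal.sup_eq_add]
    exact sup_le h1 h2

theorem div_lin {K : Type} [Field K] (V : Subring K) (u : K) (hu : u ∈ V) (H : K[X])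
    (h : ∀ i, ((C u * X - 1) * H).coeff i ∈ V) : ∀ i, H.coeff i ∈ V := by
  intro i
  induction i with
  | zero =>
    have := h 0
    rw [sub_mul, one_mul, coeff_sub, mul_assoc, coeff_C_mul, coeff_X_mul_zero, mul_zero,
      zero_sub] at this
    simpa using V.neg_mem this
  | succ i ih =>
    have := h (i + 1)
    rw [sub_mul, one_mul, coeff_sub, mul_assoc, coeff_C_mul, coeff_X_mul] at this
    have h2 := V.sub_mem (V.mul_mem hu ih) this
    simpa using h2

theorem div_pow_lin {K : Type} [Field K] (V : Subring K) (u : K) (hu : u ∈ V) (r : ℕ) :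
    ∀ H : K[X], (∀ i, ((C u * X - 1) ^ r * H).coeff i ∈ V) → ∀ i, H.coeff i ∈ V := by
  induction r with
  | zero => intro H h; simpa using h
  | succ r ih =>
    intro H h
    apply div_lin V u hu
    apply ih
    intro i
    have := h i
    rwa [pow_succ, mul_assoc] at this

theorem int_of_val {K : Type} [Field K] (x : K) (h : ∀ V : ValuationSubring K, x ∈ V) :
    IsIntegral ℤ x := by
  have h1 : x ∈ (integralClosure (Subring.closure (∅ : Set K)) K).toSubring := by
    rw [← iInf_valuationSubring_superset, Subring.mem_iInf]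
    intro V
    exact h V.1
  have h2 : IsIntegral (Subring.closure (∅ : Set K)) x := h1
  have : Algebra.IsIntegral ℤ (Subring.closure (∅ : Set K)) := by
    refine ⟨fun y => ?_⟩
    have hy : y.1 ∈ (⊥ : Subring K) := by
      rw [← Subring.closure_empty]
      exact y.2
    obtain ⟨n, hn⟩ := Subring.mem_bot.mp hy
    have : y = algebraMap ℤ _ n := Subtype.ext (by simpa using hn.symm)
    rw [this]
    exact isIntegral_algebraMap
  exact isIntegral_trans (A := Subring.closure (∅ : Set K)) x h2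

theorem val_of_int {K : Type} [Field K] (x : K) (h : IsIntegral ℤ x) (V : ValuationSubring K) :
    x ∈ V := by
  have h1 : IsIntegral V x := h.tower_top
  obtain ⟨y, rfl⟩ := IsIntegrallyClosed.algebraMap_eq_of_integral h1
  exact y.2

/-- Gauss' lemma in the form needed here. -/
theorem hecke {K : Type} [Field K] (ω : K) (r : ℕ) (H : K[X])
    (h : ∀ i, IsIntegral ℤ (((X - C ω) ^ r * H).coeff i)) (j : ℕ) (hj : j ≤ r) :
    IsIntegral ℤ (H.leadingCoeff * ω ^ j) := by
  apply int_of_val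
  intro V
  have hc : H.leadingCoeff ∈ V := by
    have e : ((X - C ω) ^ r * H).leadingCoeff = H.leadingCoeff := by
      rw [leadingCoeff_mul, ((monic_X_sub_C ω).pow r).leadingCoeff, one_mul]
    rw [← e]
    exact val_of_int _ (h _) V
  by_cases hω : ω ∈ V
  · exact V.mul_mem _ _ hc (V.toSubring.pow_mem hω j)
  · have hu : ω⁻¹ ∈ V := (V.mem_or_inv_mem ω).resolve_left hω
    have h0 : ω ≠ 0 := fun h0 => hω (h0 ▸ V.zero_mem)
    have e : (X - C ω) ^ r * H = (C ω⁻¹ * X - 1) ^ r * (C (ω ^ r) * H) := by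
      have : X - C ω = (C ω⁻¹ * X - 1) * C ω := by
        rw [sub_mul, mul_right_comm, ← C_mul, inv_mul_cancel₀ h0]
        simp
      rw [this, mul_pow, C_pow, mul_assoc]
    have h1 := div_pow_lin V.toSubring ω⁻¹ hu r (C (ω ^ r) * H)
      (fun i => by rw [← e]; exact val_of_int _ (h i) V) H.natDegree
    rw [coeff_C_mul] at h1
    have e2 : H.leadingCoeff * ω ^ j = (ω ^ r * H.coeff H.natDegree) * ω⁻¹ ^ (r - j) := by
      obtain ⟨k, rfl⟩ := Nat.exists_eq_add_of_le hj
      rw [Nat.add_sub_cancel_left, pow_add, leadingCoeff, inv_pow]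
      have hk : ω ^ k ≠ 0 := pow_ne_zero k h0
      field_simp
    rw [e2]
    exact V.toSubring.mul_mem h1 (V.toSubring.pow_mem hu _)

/-- The archimedean inequality. -/
theorem arch (z : ℂ) (r m : ℕ) (H : ℂ[X]) (A B W : ℝ) (hB : 0 < B) (hBA : B ≤ A) (hH : H ≠ 0)
    (hm : ((X - C z) ^ r * H).natDegree ≤ m)
    (hW : ∀ i, i ≤ m → ‖((X - C z) ^ r * H).coeff i‖ * A ^ i * B ^ (m - i) ≤ W) :
    ‖H.leadingCoeff‖ * max A (‖z‖ * B) ^ r * B ^ (m - r) ≤ (m + 1) * W := by
  have hA : 0 < A := lt_of_lt_of_le hB hBA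
  have hrm : r ≤ m := by
    rw [((monic_X_sub_C z).pow r).natDegree_mul' hH, natDegree_pow, natDegree_X_sub_C] at hm
    omega
  set G := (X - C z) ^ r * H with hG
  set a : ℂ := ((A / B : ℝ) : ℂ) with ha
  have hab : 1 ≤ A / B := by rw [le_div_iff₀ hB]; linarith
  have na : ‖a‖ = A / B := by
    rw [ha, Complex.norm_real, Real.norm_eq_abs, abs_of_pos (by linarith)]
  have a0 : a ≠ 0 := by
    intro h0
    rw [h0, norm_zero] at na
    linarith
  have e1 : G.comp (C a * X) = (C a * X + C (-z)) ^ r * H.comp (C a * X) := by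
    rw [hG, mul_comp, pow_comp, sub_comp, X_comp, C_comp, C_neg, sub_eq_add_neg]
  have m1 : ∀ k : ℕ, ((C a * X + C (-z)) ^ k).mahlerMeasure = max (A / B) ‖z‖ ^ k := by
    intro k
    induction k with
    | zero => simp
    | succ k ih =>
      rw [pow_succ, mahlerMeasure_mul, ih, mahlerMeasure_C_mul_X_add_C a0, na, norm_neg, pow_succ]
  have m2 : ‖H.leadingCoeff‖ ≤ (H.comp (C a * X)).mahlerMeasure := by
    refine le_trans ?_ (leadingCoeff_le_mahlerMeasure _)
    rw [leadingCoeff_comp (by rw [natDegree_C_mul_X a a0]; exact one_ne_zero), norm_mul, norm_pow,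
      leadingCoeff_C_mul_X, na]
    exact le_mul_of_one_le_right (norm_nonneg _) (one_le_pow₀ hab)
  have m3 : (G.comp (C a * X)).mahlerMeasure ≤
      ∑ i ∈ range (m + 1), ‖G.coeff i‖ * (A / B) ^ i := by
    refine le_trans (mahlerMeasure_le_sum_norm_coeff _) (le_of_eq ?_)
    have hd : (G.comp (C a * X)).natDegree < m + 1 := by
      rw [natDegree_comp, natDegree_C_mul_X a a0]
      omega
    rw [sum_over_range' _ (by simp) (m + 1) hd]
    refine sum_congr rfl fun i _ => ?_
    rw [comp_C_mul_X_coeff, norm_mul, norm_pow, na]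
  have m4 : B ^ m * ∑ i ∈ range (m + 1), ‖G.coeff i‖ * (A / B) ^ i ≤ (m + 1) * W := by
    rw [mul_sum]
    have : ∀ i ∈ range (m + 1), B ^ m * (‖G.coeff i‖ * (A / B) ^ i) ≤ W := by
      intro i hi
      have hi' : i ≤ m := Nat.lt_succ_iff.mp (mem_range.mp hi)
      refine le_trans (le_of_eq ?_) (hW i hi')
      obtain ⟨k, rfl⟩ := Nat.exists_eq_add_of_le hi'
      rw [Nat.add_sub_cancel_left, pow_add, div_pow]
      field_simp
    refine le_trans (sum_le_card_nsmul _ _ W this) (le_of_eq ?_)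
    simp
  have e2 : max A (‖z‖ * B) = max (A / B) ‖z‖ * B := by
    rw [max_mul_of_nonneg _ _ hB.le, div_mul_cancel₀ _ hB.ne']
  have e3 : ‖H.leadingCoeff‖ * max A (‖z‖ * B) ^ r * B ^ (m - r) =
      B ^ m * (max (A / B) ‖z‖ ^ r * ‖H.leadingCoeff‖) := by
    obtain ⟨k, rfl⟩ := Nat.exists_eq_add_of_le hrm
    rw [e2, Nat.add_sub_cancel_left, pow_add, mul_pow]
    ring
  rw [e3]
  refine le_trans ?_ m4
  refine mul_le_mul_of_nonneg_left (le_trans ?_ m3) (pow_pos hB m).le
  rw [e1, mahlerMeasure_mul, m1]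
  exact mul_le_mul_of_nonneg_left m2 (pow_nonneg (le_trans (norm_nonneg z) (le_max_right _ _)) r)

end Pool.Agent.MP_542436_nt.H14
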