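import Pool.Agent.MP_542436_nt.Sp.Spec
import Pool.Agent.MP_542436_nt.H14.HeightA

set_option autoImplicit false

namespace Pool.Agent.MP_542436_nt.H14

open Pool.Agent.MP_542436_nt.Sp Polynomial NumberField Finset
open scoped nonZeroDivisors

theorem house_le_of {K : Type} [Field K] [NumberField K] (x : K) (A T : ℝ) (hA : 0 < A)
    (h : ∀ w : InfinitePlace K, w x * A ≤ T) : house x * A ≤ T := by
  obtain ⟨φ, -, hφ⟩ := exists_mem_eq_sup' (univ_nonempty (α := K →+* ℂ))
    (fun φ : K →+* ℂ => ‖φ x‖₊)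
  rw [house_eq_sup', hφ]
  have := h (InfinitePlace.mk φ)
  rwa [InfinitePlace.apply] at this

theorem place_le_house {K : Type} [Field K] [NumberField K] (x : K) (w : InfinitePlace K) :
    w x ≤ house x := by
  rw [← InfinitePlace.norm_embedding_eq]
  exact norm_embedding_le_house x _

/-- The product formula step. -/
theorem prod_step {K : Type} [Field K] [NumberField K] (b : FractionalIdeal (𝓞 K)⁰ K) (hb : b ≠ 0)
    (μ : InfinitePlace K → ℝ) (hμ : ∀ w, 0 < μ w) (c T' : ℝ) (hc : 1 ≤ c) (hT : 0 ≤ T')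
    (hd : T' ^ Module.finrank ℚ K * (FractionalIdeal.absNorm b : ℝ) = c * ∏ w, μ w ^ w.mult)
    (x : K) (hx : x ≠ 0) (r : ℕ) (h1 : FractionalIdeal.spanSingleton (𝓞 K)⁰ x * b ^ r ≤ 1)
    (β Y : ℝ) (hβ : 0 ≤ β) (hY : ∀ w : InfinitePlace K, w x * μ w ^ r * β ≤ Y) :
    T' ^ r * β ≤ c ^ r * Y := by
  have hd0 : Module.finrank ℚ K ≠ 0 := Module.finrank_pos.ne'
  have hY0 : 0 ≤ Y := by
    obtain ⟨w⟩ : Nonempty (InfinitePlace K) := inferInstance
    exact le_trans (mul_nonneg (mul_nonneg (apply_nonneg w x) (pow_pos (hμ w) r).le) hβ) (hY w)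
  have n1 := one_le_norm _ h1 (mul_ne_zero
    ((FractionalIdeal.spanSingleton_ne_zero_iff).mpr hx) (pow_ne_zero r hb))
  rw [map_mul, map_pow, FractionalIdeal.absNorm_span_singleton] at n1
  have n2 : (1 : ℝ) ≤ (∏ w : InfinitePlace K, w x ^ w.mult) *
      (FractionalIdeal.absNorm b : ℝ) ^ r := by
    rw [InfinitePlace.prod_eq_abs_norm]
    exact_mod_cast n1
  have p1 : ∏ w : InfinitePlace K, (w x * μ w ^ r * β) ^ w.mult ≤ Y ^ Module.finrank ℚ K := by
    rw [← InfinitePlace.sum_mult_eq, ← prod_pow_eq_pow_sum]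
    refine prod_le_prod (fun w _ => pow_nonneg (mul_nonneg (mul_nonneg (apply_nonneg w x)
      (pow_pos (hμ w) r).le) hβ) _) (fun w _ => ?_)
    exact pow_le_pow_left₀ (mul_nonneg (mul_nonneg (apply_nonneg w x)
      (pow_pos (hμ w) r).le) hβ) (hY w) _
  have p2 : ∏ w : InfinitePlace K, (w x * μ w ^ r * β) ^ w.mult =
      (∏ w : InfinitePlace K, w x ^ w.mult) * (∏ w, μ w ^ w.mult) ^ r *
        β ^ Module.finrank ℚ K := by
    rw [← InfinitePlace.sum_mult_eq, ← prod_pow_eq_pow_sum, ← prod_pow, ← prod_mul_distrib,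
      ← prod_mul_distrib]
    refine prod_congr rfl fun w _ => ?_
    rw [mul_pow, mul_pow, ← pow_mul, ← pow_mul, mul_comm r]
  have c0 : 0 ≤ c := by linarith
  have key : (T' ^ r * β) ^ Module.finrank ℚ K ≤ (c ^ r * Y) ^ Module.finrank ℚ K := by
    have q0 : 0 ≤ (T' ^ r * β) ^ Module.finrank ℚ K :=
      pow_nonneg (mul_nonneg (pow_nonneg hT r) hβ) _
    calc (T' ^ r * β) ^ Module.finrank ℚ K
        ≤ (T' ^ r * β) ^ Module.finrank ℚ K * ((∏ w : InfinitePlace K, w x ^ w.mult) *
          (FractionalIdeal.absNorm b : ℝ) ^ r) := le_mul_of_one_le_right q0 n2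
      _ = (T' ^ Module.finrank ℚ K * (FractionalIdeal.absNorm b : ℝ)) ^ r *
          ((∏ w : InfinitePlace K, w x ^ w.mult) * β ^ Module.finrank ℚ K) := by
          rw [mul_pow, mul_pow, ← pow_mul, ← pow_mul, mul_comm r]
          ring
      _ = c ^ r * ∏ w : InfinitePlace K, (w x * μ w ^ r * β) ^ w.mult := by
          rw [hd, p2, mul_pow]
          ring
      _ ≤ c ^ r * Y ^ Module.finrank ℚ K := mul_le_mul_of_nonneg_left p1 (pow_nonneg c0 r)
      _ ≤ (c ^ r * Y) ^ Module.finrank ℚ K := by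
          rw [mul_pow]
          exact mul_le_mul_of_nonneg_right (le_self_pow₀ (one_le_pow₀ hc) hd0) (pow_nonneg hY0 _)
  exact (pow_le_pow_iff_left₀ (mul_nonneg (pow_nonneg hT r) hβ)
    (mul_nonneg (pow_nonneg c0 r) hY0) hd0).mp key

theorem coeff_eval {K : Type} [Field K] (θ : K) (m n : ℕ) (g : ℤ[X][X])
    (hg : Dg (m + 1) (n + 1) g) (i : ℕ) :
    ((up K g).eval (C θ)).coeff i = ∑ k ∈ range (n + 1), ((cf g i k : ℤ) : K) * θ ^ k := by
  have h1 : g.natDegree ≤ n := by
    rw [natDegree_le_iff_coeff_eq_zero]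
    intro k hk
    ext j
    by_contra h
    have := (hg j k (by simpa [cf] using h)).2
    omega
  have h2 : (up K g).natDegree < n + 1 := Nat.lt_succ_of_le (le_trans natDegree_map_le h1)
  rw [eval_eq_sum_range' h2, finsetSum_coeff]
  refine sum_congr rfl fun k _ => ?_
  rw [← C_pow, coeff_mul_C]
  simp [up, cf]

theorem height : HeightStmt := by
  intro K _ _ θ hθ M
  classical
  obtain ⟨c, hc, hmink⟩ := mink K
  set h : ℝ := max 1 (house θ) with hh
  have h1 : 1 ≤ h := le_max_left _ _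
  have hM : (1 : ℝ) ≤ (M : ℝ) + 1 := by have : (0 : ℝ) ≤ M := Nat.cast_nonneg M; linarith
  have hD : (1 : ℝ) ≤ ((M : ℝ) + 1) * (((M : ℝ) + 1) * h ^ M) :=
    one_le_mul_of_one_le_of_one_le hM (one_le_mul_of_one_le_of_one_le hM (one_le_pow₀ h1))
  have c0 : 0 < c := by linarith
  refine ⟨c ^ (M + 1) * (((M : ℝ) + 1) * (((M : ℝ) + 1) * h ^ M)),
    one_le_mul_of_one_le_of_one_le (one_le_pow₀ hc) hD, ?_⟩
  intro A B T ω ζ0 ζ1 hB hBA hR
  have hA : 0 < A := lt_of_lt_of_le hB hBA
  set b : FractionalIdeal (𝓞 K)⁰ K := 1 + FractionalIdeal.spanSingleton (𝓞 K)⁰ ω with hb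
  have b1 : (1 : FractionalIdeal (𝓞 K)⁰ K) ≤ b := by
    rw [hb, ← FractionalIdeal.sup_eq_add]
    exact le_sup_left
  have bω : ω ∈ b := by
    rw [← FractionalIdeal.spanSingleton_le_iff_mem, hb, ← FractionalIdeal.sup_eq_add]
    exact le_sup_right
  have b1' : (1 : K) ∈ b := b1 (FractionalIdeal.one_mem_one _)
  have b0 : b ≠ 0 := by
    intro h0
    rw [h0, FractionalIdeal.mem_zero_iff] at b1'
    exact one_ne_zero b1'
  have hN : (0 : ℝ) < (FractionalIdeal.absNorm b : ℝ) := by
    have h2 : FractionalIdeal.absNorm b ≠ 0 := by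
      rw [Ne, FractionalIdeal.absNorm_eq_zero_iff]
      exact b0
    exact_mod_cast lt_of_le_of_ne (FractionalIdeal.absNorm_nonneg _) h2.symm
  set μ : InfinitePlace K → ℝ := fun w => max A (w ω * B) with hμ
  have μ0 : ∀ w, 0 < μ w := fun w => lt_of_lt_of_le hA (le_max_left _ _)
  have P0 : 0 < ∏ w, μ w ^ w.mult := prod_pos fun w _ => pow_pos (μ0 w) _
  have hd0 : Module.finrank ℚ K ≠ 0 := Module.finrank_pos.ne'
  have q0 : 0 < c * (∏ w, μ w ^ w.mult) / (FractionalIdeal.absNorm b : ℝ) :=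
    div_pos (mul_pos c0 P0) hN
  obtain ⟨T', hT0, hT⟩ : ∃ T' : ℝ, 0 < T' ∧ T' ^ Module.finrank ℚ K =
      c * (∏ w, μ w ^ w.mult) / (FractionalIdeal.absNorm b : ℝ) :=
    ⟨_, Real.rpow_pos_of_pos q0 _, Real.rpow_inv_natCast_pow q0.le hd0⟩
  have hd : T' ^ Module.finrank ℚ K * (FractionalIdeal.absNorm b : ℝ) =
      c * ∏ w, μ w ^ w.mult := by
    rw [hT, div_mul_cancel₀ _ hN.ne']
  obtain ⟨t, ht, ht0, htw⟩ := hmink (Units.mk0 b⁻¹ (inv_ne_zero b0)) (fun w => T' / μ w)
    (fun w => div_pos hT0 (μ0 w)) (by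
      apply le_of_eq
      simp only [Units.val_mk0, map_inv₀, div_pow, prod_div_distrib, prod_pow_eq_pow_sum,
        InfinitePlace.sum_mult_eq]
      rw [hT]
      push_cast
      field_simp)
  rw [Units.val_mk0, FractionalIdeal.mem_inv_iff b0] at ht
  have htw' : ∀ w : InfinitePlace K, w t * μ w ≤ T' := fun w =>
    (le_div_iff₀ (μ0 w)).mp (htw w)
  have hz : ζ0 * ω = -ζ1 := by
    rw [hR.eq]
    have := hR.ne
    field_simp
  refine ⟨T', t, -(t * ω), ⟨?_, ?_, ht0, ?_, ?_, ?_⟩, ?_, ?_⟩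
  · have := ht 1 b1'
    rwa [mul_one, mem_one_iff_int] at this
  · exact ((mem_one_iff_int _).mp (ht ω bω)).neg
  · field_simp
  · refine house_le_of t A T' hA fun w => le_trans ?_ (htw' w)
    exact mul_le_mul_of_nonneg_left (le_max_left _ _) (apply_nonneg w t)
  · refine house_le_of _ B T' hB fun w => le_trans ?_ (htw' w)
    have e : w (-(t * ω)) = w t * w ω := by
      rw [← map_mul, ← InfinitePlace.norm_embedding_eq, ← InfinitePlace.norm_embedding_eq,
        map_neg, norm_neg]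
    rw [e, mul_assoc]
    exact mul_le_mul_of_nonneg_left (le_max_right _ _) (apply_nonneg w t)
  · have s1 := span_pow_le ω 1 ζ0 (fun i hi => by
      interval_cases i
      · simpa using hR.i0
      · rw [pow_one, hz]
        exact hR.i1.neg)
    have s2 := prod_step b b0 μ μ0 c T' hc hT0.le hd ζ0 hR.ne 1 s1 1 T zero_le_one (fun w => by
      rw [pow_one, mul_one, hμ]
      simp only
      rw [mul_max_of_nonneg _ _ (apply_nonneg w ζ0)]
      refine max_le (le_trans (mul_le_mul_of_nonneg_right (place_le_house ζ0 w) hA.le) hR.h0) ?_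
      have e : w ζ0 * w ω = w ζ1 := by
        rw [← map_mul, hz, ← InfinitePlace.norm_embedding_eq, ← InfinitePlace.norm_embedding_eq,
          map_neg, norm_neg]
      rw [← mul_assoc, e]
      exact le_trans (mul_le_mul_of_nonneg_right (place_le_house ζ1 w) hB.le) hR.h1)
    rw [pow_one, pow_one, mul_one] at s2
    have T0 : 0 ≤ T := le_trans (mul_nonneg (house_nonneg ζ0) hA.le) hR.h0
    refine le_trans s2 (mul_le_mul_of_nonneg_right ?_ T0)
    exact le_trans (le_self_pow₀ hc (Nat.succ_ne_zero M))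
      (le_mul_of_one_le_right (pow_pos c0 _).le hD)
  · intro m n r g hm hn hg hG hO
    obtain ⟨H, hH⟩ : (X - C ω) ^ r ∣ (up K g).eval (C θ) := by
      have := hO 0
      rwa [taylor_coeff_zero] at this
    have H0 : H ≠ 0 := by
      rintro rfl
      exact hG (by rw [hH, mul_zero])
    have hco := coeff_eval θ m n g hg
    have hdeg : ((up K g).eval (C θ)).natDegree ≤ m := by
      rw [natDegree_le_iff_coeff_eq_zero]
      intro i hi
      rw [hco]
      refine sum_eq_zero fun k _ => ?_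
      have : cf g i k = 0 := by
        by_contra h0
        have := (hg i k h0).1
        omega
      rw [this, Int.cast_zero, zero_mul]
    have hrm : r ≤ m := by
      rw [hH, ((monic_X_sub_C ω).pow r).natDegree_mul' H0, natDegree_pow, natDegree_X_sub_C] at hdeg
      omega
    have hint : ∀ i, IsIntegral ℤ (((X - C ω) ^ r * H).coeff i) := by
      intro i
      rw [← hH, hco]
      exact IsIntegral.sum _ fun k _ => (isIntegral_algebraMap (x := cf g i k)).mul (hθ.pow k)
    have s1 := span_pow_le ω r H.leadingCoeff (hecke ω r H hint)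
    obtain ⟨⟨i0, k0⟩, hik, hmax⟩ := exists_max_image (range (m + 1) ×ˢ range (n + 1))
      (fun e : ℕ × ℕ => |((cf g e.1 e.2 : ℤ) : ℝ)| * A ^ e.1 * B ^ (m - e.1))
      ⟨(0, 0), by simp⟩
    have hi0 : i0 ≤ m := Nat.lt_succ_iff.mp (mem_range.mp (mem_product.mp hik).1)
    refine ⟨i0, k0, hi0, ?_⟩
    set W : ℝ := |((cf g i0 k0 : ℤ) : ℝ)| * A ^ i0 * B ^ (m - i0) with hW
    have W0 : 0 ≤ W := by positivity
    have s2 := prod_step b b0 μ μ0 c T' hc hT0.le hd H.leadingCoeff (leadingCoeff_ne_zero.mpr H0) r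
      s1 (B ^ (m - r)) ((m + 1) * (((n : ℝ) + 1) * h ^ n * W)) (pow_pos hB _).le (fun w => by
        have e : ((up K g).eval (C θ)).map w.embedding =
            (X - C (w.embedding ω)) ^ r * H.map w.embedding := by
          rw [hH, Polynomial.map_mul, Polynomial.map_pow, Polynomial.map_sub, map_X, map_C]
        have a := arch (w.embedding ω) r m (H.map w.embedding) A B (((n : ℝ) + 1) * h ^ n * W)
          hB hBA (Polynomial.map_ne_zero H0) (by rw [← e]; exact le_trans natDegree_map_le hdeg)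
          (fun i hi => by
            rw [← e, coeff_map, hco, map_sum]
            have t1 : ∀ k ∈ range (n + 1),
                ‖w.embedding (((cf g i k : ℤ) : K) * θ ^ k)‖ * (A ^ i * B ^ (m - i)) ≤
                  h ^ n * W := by
              intro k hk
              have hk' : k ≤ n := Nat.lt_succ_iff.mp (mem_range.mp hk)
              have u1 := hmax (i, k) (mem_product.mpr ⟨mem_range.mpr (Nat.lt_succ_of_le hi), hk⟩)
              have u2 : ‖w.embedding θ‖ ^ k ≤ h ^ n :=
                le_trans (pow_le_pow_left₀ (norm_nonneg _)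
                  (le_trans (norm_embedding_le_house θ _) (le_max_right _ _)) k)
                  (pow_le_pow_right₀ h1 hk')
              rw [map_mul, map_pow, map_intCast, norm_mul, norm_pow, Complex.norm_intCast]
              calc |((cf g i k : ℤ) : ℝ)| * ‖w.embedding θ‖ ^ k * (A ^ i * B ^ (m - i))
                  = ‖w.embedding θ‖ ^ k * (|((cf g i k : ℤ) : ℝ)| * A ^ i * B ^ (m - i)) := by ring
                _ ≤ h ^ n * W := mul_le_mul u2 u1 (by positivity) (by positivity)
            calc ‖∑ k ∈ range (n + 1), w.embedding (((cf g i k : ℤ) : K) * θ ^ k)‖ * A ^ i *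
                  B ^ (m - i)
                = ‖∑ k ∈ range (n + 1), w.embedding (((cf g i k : ℤ) : K) * θ ^ k)‖ *
                  (A ^ i * B ^ (m - i)) := by ring
              _ ≤ (∑ k ∈ range (n + 1), ‖w.embedding (((cf g i k : ℤ) : K) * θ ^ k)‖) *
                  (A ^ i * B ^ (m - i)) :=
                  mul_le_mul_of_nonneg_right (norm_sum_le _ _) (by positivity)
              _ ≤ ((n : ℝ) + 1) * h ^ n * W := by
                  rw [sum_mul]
                  refine le_trans (sum_le_card_nsmul _ _ _ t1) (le_of_eq ?_)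
                  simp [mul_assoc])
        rwa [leadingCoeff_map, InfinitePlace.norm_embedding_eq,
          InfinitePlace.norm_embedding_eq] at a)
    refine le_trans s2 ?_
    have v1 : c ^ r ≤ c ^ (M + 1) := pow_le_pow_right₀ hc (by omega)
    have v2 : (m : ℝ) + 1 ≤ (M : ℝ) + 1 := by exact_mod_cast Nat.succ_le_succ hm
    have v3 : (n : ℝ) + 1 ≤ (M : ℝ) + 1 := by exact_mod_cast Nat.succ_le_succ hn
    have v4 : h ^ n ≤ h ^ M := pow_le_pow_right₀ h1 hn
    have h0 : 0 ≤ h := by linarith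
    calc c ^ r * (((m : ℝ) + 1) * (((n : ℝ) + 1) * h ^ n * W))
        = c ^ r * (((m : ℝ) + 1) * (((n : ℝ) + 1) * h ^ n)) * W := by ring
      _ ≤ c ^ (M + 1) * (((M : ℝ) + 1) * (((M : ℝ) + 1) * h ^ M)) * W := by gcongr

end Pool.Agent.MP_542436_nt.H14
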